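import Pool.Agent.Q260.OE.Stm
import Pool.Agent.Q260.GM.Zl3
import Pool.Agent.Q286.BD.Fin

set_option autoImplicit false

/-!
# Project OE: partial fractions of `ζ'/ζ` near the critical line with the zeros of a finite set removed
-/

namespace Pool.Agent.Q31.OE

open Complex MeasureTheory Filter Topology Set
open scoped ComplexConjugate
open Pool.Agent.Q286.BD (cl mz Zr eqv cl_im)
open Pool.Agent.Q260.OE (Go Nz S_CR2)
open Pool.Agent.Y23 (Zt mu mu_conj zsummable zsum_le Lg one_le_Lg ZZ YL cjZ)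
open Pool.Agent.Q260.LF (hk ZZ_right)
open Pool.Agent.Q260.GM (sx pfR hk_half hk_summ LD_eq YL_norm inv_diff zt_re zt_im)

lemma cp_ne {x : ℝ} (hx : 0 < x) (u : ℝ) : (⟨x, u⟩ : ℂ) ≠ 0 := by
  intro h
  have := congrArg Complex.re h
  simp at this
  exact hx.ne' this

lemma cp_eq (x u : ℝ) : (⟨x, u⟩ : ℂ) = (x : ℂ) + u * I := by
  apply Complex.ext <;> simp

/-- the difference of the kernels at the height `u` -/
noncomputable def Dk (x u : ℝ) : ℂ := 1 / (⟨x, u⟩ : ℂ) - 1 / (⟨1, u⟩ : ℂ)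

lemma Dk_le {x : ℝ} (hx : 0 < x) (h1 : x ≤ 1) (u : ℝ) : ‖Dk x u‖ ≤ 1 / x * (1 / (1 + u ^ 2)) :=
  inv_diff hx h1 u

lemma nrm_re (x u : ℝ) : |x| ≤ ‖(⟨x, u⟩ : ℂ)‖ := Complex.abs_re_le_norm (⟨x, u⟩ : ℂ)
lemma nrm_im (x u : ℝ) : |u| ≤ ‖(⟨x, u⟩ : ℂ)‖ := Complex.abs_im_le_norm (⟨x, u⟩ : ℂ)

lemma one_div_le_one (u : ℝ) : ‖1 / (⟨1, u⟩ : ℂ)‖ ≤ 1 := by
  have h := nrm_re 1 u
  rw [abs_one] at h
  rw [norm_div, norm_one]
  exact (div_le_one (by linarith)).2 h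

lemma Dk_near {x u : ℝ} (hu : |u| ≤ 1) :
    ‖Dk x u‖ ≤ 1 / ‖(⟨x, u⟩ : ℂ)‖ + 2 * (1 / (1 + u ^ 2)) := by
  unfold Dk
  have h1 := norm_sub_le (1 / (⟨x, u⟩ : ℂ)) (1 / (⟨1, u⟩ : ℂ))
  have h2 := one_div_le_one u
  have h3 : ‖1 / (⟨x, u⟩ : ℂ)‖ = 1 / ‖(⟨x, u⟩ : ℂ)‖ := by rw [norm_div, norm_one]
  have h4 : (1 : ℝ) ≤ 2 * (1 / (1 + u ^ 2)) := by
    rw [mul_one_div, le_div_iff₀ (by positivity)]
    have : u ^ 2 ≤ 1 := by
      rw [← sq_abs]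
      nlinarith [abs_nonneg u]
    linarith
  rw [h3] at h1
  linarith

lemma Dk_far {x u : ℝ} (hx : 0 < x) (h1 : x ≤ 1) (hu : 1 < |u|) :
    ‖Dk x u‖ ≤ 2 * (1 / (1 + u ^ 2)) := by
  unfold Dk
  rw [div_sub_div _ _ (cp_ne hx u) (cp_ne one_pos u), norm_div, norm_mul]
  have e : (1 * (⟨1, u⟩ : ℂ) - (⟨x, u⟩ : ℂ) * 1) = ((1 - x : ℝ) : ℂ) := by
    apply Complex.ext <;> simp
  rw [e, Complex.norm_real, Real.norm_eq_abs, abs_of_nonneg (by linarith)]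
  have h2 := nrm_im x u
  have h3 := nrm_im 1 u
  have h4 : u ^ 2 ≤ ‖(⟨x, u⟩ : ℂ)‖ * ‖(⟨1, u⟩ : ℂ)‖ := by
    rw [← sq_abs, sq]
    exact mul_le_mul h2 h3 (abs_nonneg _) (norm_nonneg _)
  have h5 : 1 < u ^ 2 := by
    rw [← sq_abs]
    nlinarith
  rw [mul_one_div, div_le_div_iff₀ (by linarith) (by positivity)]
  have h6 : (1 - x) * (1 + u ^ 2) ≤ 1 * (1 + u ^ 2) :=
    mul_le_mul_of_nonneg_right (by linarith) (by positivity)
  nlinarith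

/-- the sum over the zeros, symmetrised -/
lemma diff_eq (hRH : RiemannHypothesis) {x : ℝ} (hx : 0 < x) (h1 : x ≤ 1) (t : ℝ) :
    Summable (fun ρ : Zt => (mu ρ : ℂ) * Dk x (t - (ρ : ℂ).im)) ∧
    ZZ ⟨x, t⟩ - ZZ ⟨1, t⟩ = ∑' ρ : Zt, (mu ρ : ℂ) * Dk x (t - (ρ : ℂ).im) := by
  have hz : 0 < (⟨x, t⟩ : ℂ).re := hx
  have hz1 : 0 < (⟨1, t⟩ : ℂ).re := one_pos
  have s1 := (hk_summ hRH hz).of_norm
  have s2 := (hk_summ hRH hz1).of_norm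
  have bd : ∀ (c : ℝ) (ρ : Zt), ‖(mu ρ : ℂ) * Dk x (c * ((ρ : ℂ).im - t))‖ ≤
      1 / x * ((mu ρ : ℝ) * (1 / (1 + (c * ((ρ : ℂ).im - t)) ^ 2))) := by
    intro c ρ
    rw [norm_mul, Complex.norm_natCast]
    calc (mu ρ : ℝ) * ‖Dk x (c * ((ρ : ℂ).im - t))‖ ≤
        (mu ρ : ℝ) * (1 / x * (1 / (1 + (c * ((ρ : ℂ).im - t)) ^ 2))) :=
          mul_le_mul_of_nonneg_left (Dk_le hx h1 _) (Nat.cast_nonneg _)
      _ = _ := by ring
  have f1 : Summable (fun ρ : Zt => (mu ρ : ℂ) * Dk x (t - (ρ : ℂ).im)) := by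
    refine Summable.of_norm_bounded ((zsummable t).mul_left (1 / x)) fun ρ => ?_
    have h := bd (-1) ρ
    have e1 : (-1 : ℝ) * ((ρ : ℂ).im - t) = t - (ρ : ℂ).im := by ring
    have e2 : (1 + ((-1 : ℝ) * ((ρ : ℂ).im - t)) ^ 2) = 1 + ((ρ : ℂ).im - t) ^ 2 := by ring
    rw [e2, e1] at h
    exact h
  have key : ∀ ρ : Zt, (mu ((cjZ ρ : Zt) : ℂ) : ℂ) * Dk x (t + ((cjZ ρ : Zt) : ℂ).im) =
      (mu (ρ : ℂ) : ℂ) * Dk x (t - (ρ : ℂ).im) := by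
    intro ρ
    have k1 : ((cjZ ρ : Zt) : ℂ) = conj (ρ : ℂ) := rfl
    rw [k1, Complex.conj_im, mu_conj ρ.2, ← sub_eq_add_neg]
  have f2 : Summable (fun ρ : Zt => (mu ρ : ℂ) * Dk x (t + (ρ : ℂ).im)) := by
    rw [← cjZ.summable_iff]
    exact f1.congr fun ρ => (key ρ).symm
  have f3 : ∑' ρ : Zt, (mu ρ : ℂ) * Dk x (t + (ρ : ℂ).im) =
      ∑' ρ : Zt, (mu ρ : ℂ) * Dk x (t - (ρ : ℂ).im) := by
    rw [← cjZ.tsum_eq]
    exact tsum_congr key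
  refine ⟨f1, ?_⟩
  have e : ∀ ρ : Zt, ((mu ρ : ℂ) * hk ⟨x, t⟩ ((ρ : ℂ) - 1 / 2) -
      (mu ρ : ℂ) * hk ⟨1, t⟩ ((ρ : ℂ) - 1 / 2)) =
      ((mu ρ : ℂ) * Dk x (t - (ρ : ℂ).im) + (mu ρ : ℂ) * Dk x (t + (ρ : ℂ).im)) / 2 := by
    intro ρ
    have hr := zt_re hRH ρ
    have hi := zt_im ρ
    set ζ := (ρ : ℂ) - 1 / 2 with hζ
    have a1 : (⟨x, t⟩ : ℂ) - ζ = ⟨x, t - ζ.im⟩ := by apply Complex.ext <;> simp [hr]
    have a2 : (⟨x, t⟩ : ℂ) + ζ = ⟨x, t + ζ.im⟩ := by apply Complex.ext <;> simp [hr]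
    have a3 : (⟨1, t⟩ : ℂ) - ζ = ⟨1, t - ζ.im⟩ := by apply Complex.ext <;> simp [hr]
    have a4 : (⟨1, t⟩ : ℂ) + ζ = ⟨1, t + ζ.im⟩ := by apply Complex.ext <;> simp [hr]
    rw [hk_half (by rw [a1]; exact cp_ne hx _) (by rw [a2]; exact cp_ne hx _),
      hk_half (by rw [a3]; exact cp_ne one_pos _) (by rw [a4]; exact cp_ne one_pos _), a1, a2, a3, a4, ← hi]
    unfold Dk
    ring
  rw [pfR hRH hz, pfR hRH hz1, ← s1.tsum_sub s2, tsum_congr e, tsum_div_const, f1.tsum_add f2, f3]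
  ring

/-- **partial fractions** -/
theorem t_CR2 : S_CR2 := by
  classical
  intro hRH S hS
  obtain ⟨K, hK, hKs⟩ := zsum_le
  obtain ⟨C, hC, hR⟩ := ZZ_right
  set M : ℝ := ∑ g ∈ S, (mz (cl g) : ℝ) with hM
  have hM0 : 0 ≤ M := Finset.sum_nonneg fun g _ => Nat.cast_nonneg _
  refine ⟨15 + 2 * C + M + 2 * K, by positivity, fun x t hx h14 => ?_⟩
  have h1 : x ≤ 1 := by linarith
  have hL := one_le_Lg t
  obtain ⟨f1, hdiff⟩ := diff_eq hRH hx h1 t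
  -- the sums over the ordinates
  have k0 : ∀ g : Go, (((eqv hRH g : Zr) : ℂ)).im = g := fun g => cl_im g
  have g1 : Summable (fun g : Go => (mz (cl g) : ℂ) * Dk x (t - g)) := by
    refine ((eqv hRH).summable_iff.mpr f1).congr fun g => ?_
    show (mu (cl g) : ℂ) * Dk x (t - (cl (g : ℝ)).im) = (mz (cl g) : ℂ) * Dk x (t - g)
    rw [cl_im]
    rfl
  have g2 : ZZ ⟨x, t⟩ - ZZ ⟨1, t⟩ = ∑' g : Go, (mz (cl g) : ℂ) * Dk x (t - g) := by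
    rw [hdiff, ← (eqv hRH).tsum_eq]
    refine tsum_congr fun g => ?_
    show (mu (cl g) : ℂ) * Dk x (t - (cl (g : ℝ)).im) = (mz (cl g) : ℂ) * Dk x (t - g)
    rw [cl_im]
    rfl
  have g3 : Summable (fun g : Go => (mz (cl g) : ℝ) * (1 / (1 + ((g : ℝ) - t) ^ 2))) := by
    refine ((eqv hRH).summable_iff.mpr (zsummable t)).congr fun g => ?_
    show (mu (cl g) : ℝ) * (1 / (1 + ((cl (g : ℝ)).im - t) ^ 2)) = (mz (cl g) : ℝ) * (1 / (1 + ((g : ℝ) - t) ^ 2))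
    rw [cl_im]
    rfl
  have g4 : ∑' g : Go, (mz (cl g) : ℝ) * (1 / (1 + ((g : ℝ) - t) ^ 2)) ≤ K * Lg t := by
    refine le_of_eq_of_le ?_ (hKs t)
    rw [← (eqv hRH).tsum_eq]
    refine tsum_congr fun g => ?_
    show (mz (cl g) : ℝ) * (1 / (1 + ((g : ℝ) - t) ^ 2)) = (mu (cl g) : ℝ) * (1 / (1 + ((cl (g : ℝ)).im - t) ^ 2))
    rw [cl_im]
    rfl
  -- the finite set inside the set of ordinates
  set S' : Finset Go := S.subtype (fun g : ℝ => g ∈ Go) with hS'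
  have hmem : ∀ g : Go, g ∈ S' ↔ (g : ℝ) ∈ S := fun g => by rw [hS', Finset.mem_subtype]
  have sumS : ∀ {E : Type} [AddCommMonoid E] (f : ℝ → E), ∑ g ∈ S, f g = ∑ g ∈ S', f (g : ℝ) := by
    intro E _ f
    exact (Finset.sum_subtype_of_mem (p := fun g : ℝ => g ∈ Go) f (fun g hg => hS g hg)).symm
  have q1 : HasSum (fun g : Go => if (g : ℝ) ∈ S then (mz (cl g) : ℂ) * (1 / (⟨x, t - g⟩ : ℂ)) else 0)
      (∑ g ∈ S, (mz (cl g) : ℂ) * (1 / (⟨x, t - g⟩ : ℂ))) := by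
    rw [sumS (fun g => (mz (cl g) : ℂ) * (1 / (⟨x, t - g⟩ : ℂ)))]
    have h := hasSum_sum_of_ne_finset_zero (L := SummationFilter.unconditional Go)
      (f := fun g : Go => if (g : ℝ) ∈ S then (mz (cl g) : ℂ) * (1 / (⟨x, t - g⟩ : ℂ)) else 0) (s := S')
      (fun g hg => by rw [if_neg]; rwa [hmem] at hg)
    have e : ∑ g ∈ S', (if (g : ℝ) ∈ S then (mz (cl g) : ℂ) * (1 / (⟨x, t - g⟩ : ℂ)) else 0) =
        ∑ g ∈ S', (mz (cl g) : ℂ) * (1 / (⟨x, t - (g : ℝ)⟩ : ℂ)) := by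
      refine Finset.sum_congr rfl fun g hg => ?_
      rw [if_pos ((hmem g).1 hg)]
    rwa [e] at h
  have q2 : HasSum (fun g : Go => if (g : ℝ) ∈ S then (mz (cl g) : ℝ) else 0) M := by
    rw [hM, sumS (fun g => (mz (cl g) : ℝ))]
    have h := hasSum_sum_of_ne_finset_zero (L := SummationFilter.unconditional Go)
      (f := fun g : Go => if (g : ℝ) ∈ S then (mz (cl g) : ℝ) else 0) (s := S')
      (fun g hg => by rw [if_neg]; rwa [hmem] at hg)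
    have e : ∑ g ∈ S', (if (g : ℝ) ∈ S then (mz (cl g) : ℝ) else 0) = ∑ g ∈ S', (mz (cl (g : ℝ)) : ℝ) := by
      refine Finset.sum_congr rfl fun g hg => ?_
      rw [if_pos ((hmem g).1 hg)]
    rwa [e] at h
  -- the near zeros
  have q3 : Summable (fun g : Go => if (g : ℝ) ∈ S ∨ 1 < |(g : ℝ) - t| then 0 else
      (mz (cl g) : ℝ) / ‖(x : ℂ) + (t - (g : ℝ)) * I‖) := by
    refine Summable.of_nonneg_of_le (fun g => ?_) (fun g => ?_) (g3.mul_left (2 / x))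
    · split_ifs
      · exact le_rfl
      · positivity
    · split_ifs with h
      · positivity
      · push Not at h
        have e1 : (x : ℂ) + (t - (g : ℝ)) * I = ⟨x, t - g⟩ := by rw [cp_eq]; push_cast; ring
        rw [e1]
        have h2 := nrm_re x (t - g)
        rw [abs_of_pos hx] at h2
        have h3 : ((g : ℝ) - t) ^ 2 ≤ 1 := by
          rw [← sq_abs]
          nlinarith [abs_nonneg ((g : ℝ) - t), h.2]
        have h4 : (mz (cl g) : ℝ) / ‖(⟨x, t - g⟩ : ℂ)‖ ≤ (mz (cl g) : ℝ) / x :=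
          div_le_div_of_nonneg_left (Nat.cast_nonneg _) hx h2
        have h5 : (1 : ℝ) ≤ 2 * (1 / (1 + ((g : ℝ) - t) ^ 2)) := by
          rw [mul_one_div, le_div_iff₀ (by positivity)]
          linarith
        have h6 : (mz (cl g) : ℝ) / x * 1 ≤ (mz (cl g) : ℝ) / x * (2 * (1 / (1 + ((g : ℝ) - t) ^ 2))) :=
          mul_le_mul_of_nonneg_left h5 (by positivity)
        calc _ ≤ (mz (cl g) : ℝ) / x * (2 * (1 / (1 + ((g : ℝ) - t) ^ 2))) := by linarith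
          _ = _ := by ring
  -- the bound of the terms
  have hb : ∀ g : Go, ‖(mz (cl g) : ℂ) * Dk x (t - g) -
      (if (g : ℝ) ∈ S then (mz (cl g) : ℂ) * (1 / (⟨x, t - g⟩ : ℂ)) else 0)‖ ≤
      (if (g : ℝ) ∈ S then (mz (cl g) : ℝ) else 0) +
      (if (g : ℝ) ∈ S ∨ 1 < |(g : ℝ) - t| then 0 else (mz (cl g) : ℝ) / ‖(x : ℂ) + (t - (g : ℝ)) * I‖) +
      2 * ((mz (cl g) : ℝ) * (1 / (1 + ((g : ℝ) - t) ^ 2))) := by
    intro g
    have hm : 0 ≤ (mz (cl g) : ℝ) := Nat.cast_nonneg _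
    have hp : 0 ≤ 2 * ((mz (cl g) : ℝ) * (1 / (1 + ((g : ℝ) - t) ^ 2))) := by positivity
    have esq : (t - (g : ℝ)) ^ 2 = ((g : ℝ) - t) ^ 2 := by ring
    have eab : |t - (g : ℝ)| = |(g : ℝ) - t| := abs_sub_comm _ _
    by_cases hg : (g : ℝ) ∈ S
    · rw [if_pos hg, if_pos hg, if_pos (Or.inl hg)]
      have e : (mz (cl g) : ℂ) * Dk x (t - g) - (mz (cl g) : ℂ) * (1 / (⟨x, t - g⟩ : ℂ)) =
          -((mz (cl g) : ℂ) * (1 / (⟨1, t - g⟩ : ℂ))) := by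
        unfold Dk
        ring
      rw [e, norm_neg, norm_mul, Complex.norm_natCast]
      have h2 := mul_le_mul_of_nonneg_left (one_div_le_one (t - g)) hm
      rw [mul_one] at h2
      linarith
    · rw [if_neg hg, if_neg hg, sub_zero, norm_mul, Complex.norm_natCast]
      by_cases hu : 1 < |(g : ℝ) - t|
      · rw [if_pos (Or.inr hu)]
        have h2 := Dk_far hx h1 (by rw [eab]; exact hu : 1 < |t - (g : ℝ)|)
        have h3 := mul_le_mul_of_nonneg_left h2 hm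
        rw [esq] at h3
        linarith
      · rw [if_neg (by tauto)]
        have h2 := Dk_near (x := x) (by rw [eab]; exact not_lt.1 hu : |t - (g : ℝ)| ≤ 1)
        have h3 := mul_le_mul_of_nonneg_left h2 hm
        rw [esq] at h3
        have e1 : (x : ℂ) + (t - (g : ℝ)) * I = ⟨x, t - g⟩ := by rw [cp_eq]; push_cast; ring
        rw [e1]
        have e2 : (mz (cl g) : ℝ) * (1 / ‖(⟨x, t - g⟩ : ℂ)‖ + 2 * (1 / (1 + ((g : ℝ) - t) ^ 2))) =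
          (mz (cl g) : ℝ) / ‖(⟨x, t - g⟩ : ℂ)‖ + 2 * ((mz (cl g) : ℝ) * (1 / (1 + ((g : ℝ) - t) ^ 2))) := by ring
        rw [e2] at h3
        linarith
  have hsum := ((q2.summable.add q3).add (g3.mul_left 2))
  have hT := tsum_of_norm_bounded hsum.hasSum hb
  rw [g1.tsum_sub q1.summable, ← g2, q1.tsum_eq, (q2.summable.add q3).tsum_add (g3.mul_left 2),
    q2.summable.tsum_add q3, q2.tsum_eq, tsum_mul_left] at hT
  have hNz : ∑' g : Go, (if (g : ℝ) ∈ S ∨ 1 < |(g : ℝ) - t| then 0 else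
      (mz (cl g) : ℝ) / ‖(x : ℂ) + (t - (g : ℝ)) * I‖) = Nz S x t := rfl
  rw [hNz] at hT
  -- the sum over `S` in the statement
  have eS : ∑ g ∈ S, (mz (cl g) : ℂ) / ((((1 / 2 + x : ℝ) : ℂ) + t * I) - cl g) =
      ∑ g ∈ S, (mz (cl g) : ℂ) * (1 / (⟨x, t - g⟩ : ℂ)) := by
    refine Finset.sum_congr rfl fun g _ => ?_
    have e1 : (((1 / 2 + x : ℝ) : ℂ) + t * I) - cl g = ⟨x, t - g⟩ := by
      rw [cp_eq]
      unfold cl
      push_cast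
      ring
    rw [e1]
    ring
  have eL : deriv riemannZeta (((1 / 2 + x : ℝ) : ℂ) + t * I) / riemannZeta (((1 / 2 + x : ℝ) : ℂ) + t * I) =
      ZZ ⟨x, t⟩ - YL ⟨x, t⟩ := LD_eq hRH hx h14 t
  rw [eS, eL]
  have e3 : -(ZZ ⟨x, t⟩ - YL ⟨x, t⟩) + ∑ g ∈ S, (mz (cl g) : ℂ) * (1 / (⟨x, t - g⟩ : ℂ)) =
      (YL ⟨x, t⟩ - ZZ ⟨1, t⟩) - (ZZ ⟨x, t⟩ - ZZ ⟨1, t⟩ - ∑ g ∈ S, (mz (cl g) : ℂ) * (1 / (⟨x, t - g⟩ : ℂ))) := by
    ring
  rw [e3]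
  have n1 := norm_sub_le (YL ⟨x, t⟩ - ZZ ⟨1, t⟩)
    (ZZ ⟨x, t⟩ - ZZ ⟨1, t⟩ - ∑ g ∈ S, (mz (cl g) : ℂ) * (1 / (⟨x, t - g⟩ : ℂ)))
  have n2 := norm_sub_le (YL ⟨x, t⟩) (ZZ ⟨1, t⟩)
  have n3 := YL_norm hx h14 t
  have h7 := hR ⟨1, t⟩ le_rfl
  have h8 : Real.log (2 + ‖(⟨1, t⟩ : ℂ)‖) ≤ Lg t := by
    apply Real.log_le_log (by positivity)
    have := Complex.norm_le_abs_re_add_abs_im (⟨1, t⟩ : ℂ)
    simp only [abs_one] at this
    linarith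
  have h9 : ‖ZZ ⟨1, t⟩‖ ≤ C * (2 * Lg t) := h7.trans (mul_le_mul_of_nonneg_left (by linarith) hC.le)
  have h10 : Real.log (|t| + 3) = Lg t := by
    unfold Lg
    rw [add_comm]
  rw [h10]
  have h11 : M ≤ M * Lg t := le_mul_of_one_le_right hM0 hL
  have h12 : (15 + 2 * C + M + 2 * K) * Lg t = 15 * Lg t + C * (2 * Lg t) + M * Lg t + 2 * (K * Lg t) := by ring
  rw [h12]
  linarith

end Pool.Agent.Q31.OE
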